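import Pool.Agent.Helper34.BIC.Link

/-!
# The counting lemma CNT

`M` is a finite matroid, `H x` (`x` in a finite index type `V`) are sets such that the common part
of any nonempty family `K ⊆ O` of them has rank at most `r + j - |K|`, and `D` is a finite set all
of whose elements are outside of at most two of the `H x`, `x ∈ O`.  Then there are at least
`|O| - |D|` pairwise disjoint nonempty sets `S v ⊆ O`, such that for any `j + 1` of them the
elements of `D`, together with all elements which lie in `H x` for all `x` in their union, have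
rank smaller than `r`.
-/

open Set

namespace BIC.Cnt

open BIC

variable {α V : Type*} [Fintype V]

open Classical in
/-- Blocks `f x = v` of `O`: every `d ∈ D` is seen by one block only, and at least `|O| - |D|`
blocks are larger than the number of elements of `D` they see. -/
lemma exists_blocks (H : V → Set α) (O : Finset V) (D : Finset α)
    (h2 : ∀ d ∈ D, ∃ a b : V, ∀ x ∈ O, d ∉ H x → x = a ∨ x = b) :
    ∃ f : V → V, (∀ d ∈ D, ∀ x ∈ O, ∀ y ∈ O, d ∉ H x → d ∉ H y → f x = f y) ∧
      O.card ≤ D.card + (Finset.univ.filter (fun v =>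
        (D.filter (fun d => ∃ x ∈ O, f x = v ∧ d ∉ H x)).card <
          (O.filter (fun x => f x = v)).card)).card := by
  induction D using Finset.induction_on with
  | empty =>
    refine ⟨id, by simp, ?_⟩
    have : O ⊆ Finset.univ.filter (fun v : V =>
        ((∅ : Finset α).filter (fun d => ∃ x ∈ O, id x = v ∧ d ∉ H x)).card <
          (O.filter (fun x => id x = v)).card) := by
      intro v hv
      simp only [Finset.mem_filter, Finset.mem_univ, true_and, Finset.filter_empty,
        Finset.card_empty, Finset.card_pos]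
      exact ⟨v, by simp [hv]⟩
    simpa using Finset.card_le_card this
  | insert d D hd ih =>
    obtain ⟨f, hf, hcard⟩ := ih (fun e he => h2 e (Finset.mem_insert_of_mem he))
    by_cases hsee : ∃ x ∈ O, d ∉ H x
    swap
    · push Not at hsee
      refine ⟨f, ?_, ?_⟩
      · intro e he x hx y hy hex hey
        rcases Finset.mem_insert.1 he with rfl | he
        · exact absurd (hsee x hx) hex
        · exact hf e he x hx y hy hex hey
      · have : ∀ v, ((insert d D).filter (fun d => ∃ x ∈ O, f x = v ∧ d ∉ H x)) =
            (D.filter (fun d => ∃ x ∈ O, f x = v ∧ d ∉ H x)) := by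
          intro v
          rw [Finset.filter_insert, if_neg]
          rintro ⟨x, hx, -, h⟩
          exact h (hsee x hx)
        simp only [this]
        rw [Finset.card_insert_of_notMem hd]
        omega
    obtain ⟨a, b, ha, hb, hda, hdb, hab⟩ : ∃ a b : V, a ∈ O ∧ b ∈ O ∧ d ∉ H a ∧ d ∉ H b ∧
        ∀ x ∈ O, d ∉ H x → x = a ∨ x = b := by
      obtain ⟨a, b, h⟩ := h2 d (Finset.mem_insert_self _ _)
      obtain ⟨c, hc, hdc⟩ := hsee
      by_cases ha : a ∈ O ∧ d ∉ H a
      · by_cases hb : b ∈ O ∧ d ∉ H b
        · exact ⟨a, b, ha.1, hb.1, ha.2, hb.2, h⟩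
        · refine ⟨a, a, ha.1, ha.1, ha.2, ha.2, fun x hx hdx => ?_⟩
          rcases h x hx hdx with rfl | rfl
          · exact Or.inl rfl
          · exact absurd ⟨hx, hdx⟩ hb
      · have hb : b ∈ O ∧ d ∉ H b := by
          rcases h c hc hdc with rfl | rfl
          · exact absurd ⟨hc, hdc⟩ ha
          · exact ⟨hc, hdc⟩
        refine ⟨b, b, hb.1, hb.1, hb.2, hb.2, fun x hx hdx => ?_⟩
        rcases h x hx hdx with rfl | rfl
        · exact absurd ⟨hx, hdx⟩ ha
        · exact Or.inl rfl
    set f' : V → V := fun x => if f x = f b then f a else f x with hf'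
    have hfa : f' a = f a := by
      simp only [hf']; split_ifs with h <;> rfl
    have hfb : f' b = f a := by simp [hf']
    refine ⟨f', ?_, ?_⟩
    · intro e he x hx y hy hex hey
      rcases Finset.mem_insert.1 he with rfl | he
      · rcases hab x hx hex with rfl | rfl <;> rcases hab y hy hey with rfl | rfl <;>
          simp [hfa, hfb]
      · simp only [hf', hf e he x hx y hy hex hey]
    · rw [Finset.card_insert_of_notMem hd]
      set T := Finset.univ.filter (fun v =>
        (D.filter (fun d => ∃ x ∈ O, f x = v ∧ d ∉ H x)).card <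
          (O.filter (fun x => f x = v)).card) with hT
      set T' := Finset.univ.filter (fun v =>
        ((insert d D).filter (fun d => ∃ x ∈ O, f' x = v ∧ d ∉ H x)).card <
          (O.filter (fun x => f' x = v)).card) with hT'
      -- blocks different from those of `a` and `b` are unchanged
      have hother : ∀ v ∈ T, v ≠ f a → v ≠ f b → v ∈ T' := by
        intro v hv hva hvb
        have e1 : ((insert d D).filter (fun d => ∃ x ∈ O, f' x = v ∧ d ∉ H x)) =
            D.filter (fun d => ∃ x ∈ O, f x = v ∧ d ∉ H x) := by
          rw [Finset.filter_insert, if_neg]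
          · refine Finset.filter_congr (fun e _ => ?_)
            refine ⟨?_, ?_⟩
            · rintro ⟨x, hx, hxv, hex⟩
              refine ⟨x, hx, ?_, hex⟩
              simp only [hf'] at hxv
              split_ifs at hxv with h
              · exact absurd hxv.symm hva
              · exact hxv
            · rintro ⟨x, hx, hxv, hex⟩
              refine ⟨x, hx, ?_, hex⟩
              simp only [hf']
              rw [if_neg]
              · exact hxv
              · intro h; exact hvb (hxv.symm.trans h)
          · rintro ⟨x, hx, hxv, hdx⟩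
            rcases hab x hx hdx with rfl | rfl
            · exact hva (hxv.symm.trans hfa)
            · exact hva (hxv.symm.trans hfb)
        have e2 : (O.filter (fun x => f' x = v)) = O.filter (fun x => f x = v) := by
          refine Finset.filter_congr (fun x _ => ?_)
          refine ⟨?_, ?_⟩
          · intro hxv
            simp only [hf'] at hxv
            split_ifs at hxv with h
            · exact absurd hxv.symm hva
            · exact hxv
          · intro hxv
            simp only [hf']
            rw [if_neg]
            · exact hxv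
            · intro h; exact hvb (hxv.symm.trans h)
        rw [hT', Finset.mem_filter, e1, e2]
        exact ⟨Finset.mem_univ _, (Finset.mem_filter.1 hv).2⟩
      have key : T.card ≤ T'.card + 1 := by
        have hstep : ∀ u, T.erase u ⊆ T' → T.card ≤ T'.card + 1 := by
          intro u hu
          have h1 := Finset.card_le_card hu
          have h2 := Finset.pred_card_le_card_erase (s := T) (a := u)
          omega
        by_cases hbT : f b ∈ T
        swap
        · refine hstep (f a) (fun v hv => ?_)
          obtain ⟨h1, h2⟩ := Finset.mem_erase.1 hv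
          exact hother v h2 h1 (fun h => hbT (h ▸ h2))
        by_cases haT : f a ∈ T
        swap
        · refine hstep (f b) (fun v hv => ?_)
          obtain ⟨h1, h2⟩ := Finset.mem_erase.1 hv
          exact hother v h2 (fun h => haT (h ▸ h2)) h1
        by_cases hfab : f a = f b
        · refine hstep (f b) (fun v hv => ?_)
          obtain ⟨h1, h2⟩ := Finset.mem_erase.1 hv
          exact hother v h2 (fun h => h1 (h.trans hfab)) h1
        refine hstep (f b) (fun v hv => ?_)
        obtain ⟨h1, h2⟩ := Finset.mem_erase.1 hv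
        by_cases hva : v = f a
        swap
        · exact hother v h2 hva h1
        subst hva
        have c1 : (O.filter (fun x => f' x = f a)).card =
            (O.filter (fun x => f x = f a)).card + (O.filter (fun x => f x = f b)).card := by
          rw [← Finset.card_union_of_disjoint]
          · refine Finset.card_bij (fun x _ => x) ?_ (fun _ _ _ _ h => h) ?_
            · intro x hx
              obtain ⟨hx1, hx2⟩ := Finset.mem_filter.1 hx
              simp only [hf'] at hx2
              rw [Finset.mem_union, Finset.mem_filter, Finset.mem_filter]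
              split_ifs at hx2 with h
              · exact Or.inr ⟨hx1, h⟩
              · exact Or.inl ⟨hx1, hx2⟩
            · intro x hx
              refine ⟨x, ?_, rfl⟩
              rw [Finset.mem_union, Finset.mem_filter, Finset.mem_filter] at hx
              rw [Finset.mem_filter]
              rcases hx with ⟨hx1, hx2⟩ | ⟨hx1, hx2⟩
              · refine ⟨hx1, ?_⟩
                simp only [hf']
                split_ifs with h
                · rfl
                · exact hx2
              · refine ⟨hx1, ?_⟩
                simp only [hf', if_pos hx2]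
          · rw [Finset.disjoint_left]
            intro x hx hx'
            exact hfab ((Finset.mem_filter.1 hx).2.symm.trans (Finset.mem_filter.1 hx').2)
        have c2 : ((insert d D).filter (fun d => ∃ x ∈ O, f' x = f a ∧ d ∉ H x)).card ≤
            ((D.filter (fun d => ∃ x ∈ O, f x = f a ∧ d ∉ H x)).card +
              (D.filter (fun d => ∃ x ∈ O, f x = f b ∧ d ∉ H x)).card) + 1 := by
          refine (Finset.card_le_card (t := insert d
            (D.filter (fun d => ∃ x ∈ O, f x = f a ∧ d ∉ H x) ∪
              D.filter (fun d => ∃ x ∈ O, f x = f b ∧ d ∉ H x))) ?_).trans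
            ((Finset.card_insert_le _ _).trans
              (Nat.add_le_add_right (Finset.card_union_le _ _) 1))
          intro e he
          obtain ⟨he1, x, hx, hxv, hex⟩ := Finset.mem_filter.1 he
          rcases Finset.mem_insert.1 he1 with rfl | he1
          · exact Finset.mem_insert_self _ _
          · refine Finset.mem_insert_of_mem ?_
            rw [Finset.mem_union, Finset.mem_filter, Finset.mem_filter]
            simp only [hf'] at hxv
            split_ifs at hxv with h
            · exact Or.inr ⟨he1, x, hx, h, hex⟩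
            · exact Or.inl ⟨he1, x, hx, hxv, hex⟩
        have g1 := (Finset.mem_filter.1 haT).2
        have g2 := (Finset.mem_filter.1 hbT).2
        rw [hT', Finset.mem_filter]
        refine ⟨Finset.mem_univ _, ?_⟩
        rw [c1]
        omega
      omega

/-- The counting lemma. -/
theorem cnt (M : Matroid α) [M.Finite] (H : V → Set α) (O : Finset V) (D : Finset α) (W : Set α)
    (r j : ℕ)
    (hr : ∀ K ⊆ O, K.Nonempty → rk M (⋂ x ∈ K, H x) + K.card ≤ r + j)
    (h2 : ∀ d ∈ D, ∃ a b : V, ∀ x ∈ O, d ∉ H x → x = a ∨ x = b) :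
    ∃ (T : Finset V) (S : V → Finset V), O.card ≤ D.card + T.card ∧
      (∀ v ∈ T, S v ⊆ O ∧ (S v).Nonempty) ∧
      (∀ v ∈ T, ∀ w ∈ T, v ≠ w → Disjoint (S v) (S w)) ∧
      ∀ J ⊆ T, j < J.card →
        rk M ((D : Set α) ∪ {w | w ∈ W ∧ ∀ v ∈ J, ∀ x ∈ S v, w ∈ H x}) < r := by
  classical
  obtain ⟨f, hf, hcard⟩ := exists_blocks H O D h2
  refine ⟨_, fun v => O.filter (fun x => f x = v), hcard, ?_, ?_, ?_⟩
  · intro v hv
    refine ⟨Finset.filter_subset _ _, ?_⟩
    rw [← Finset.card_pos]
    exact lt_of_le_of_lt (Nat.zero_le _) (Finset.mem_filter.1 hv).2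
  · intro v _ w _ hvw
    rw [Finset.disjoint_left]
    intro x hx hx'
    exact hvw ((Finset.mem_filter.1 hx).2.symm.trans (Finset.mem_filter.1 hx').2)
  · intro J hJ hj
    set K : Finset V := O.filter (fun x => f x ∈ J) with hK
    set DK : Finset α := J.biUnion (fun v => D.filter (fun d => ∃ x ∈ O, f x = v ∧ d ∉ H x))
      with hDK
    have h1 : DK.card + J.card ≤ K.card := by
      have e1 : K.card = ∑ v ∈ J, (O.filter (fun x => f x = v)).card := by
        rw [← Finset.card_biUnion]
        · refine Finset.card_bij (fun x _ => x) ?_ (fun _ _ _ _ h => h) ?_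
          · intro x hx
            obtain ⟨hx1, hx2⟩ := Finset.mem_filter.1 hx
            exact Finset.mem_biUnion.2 ⟨f x, hx2, Finset.mem_filter.2 ⟨hx1, rfl⟩⟩
          · intro x hx
            obtain ⟨v, hv, hx⟩ := Finset.mem_biUnion.1 hx
            obtain ⟨hx1, hx2⟩ := Finset.mem_filter.1 hx
            exact ⟨x, Finset.mem_filter.2 ⟨hx1, hx2 ▸ hv⟩, rfl⟩
        · intro v _ w _ hvw
          show Disjoint _ _
          rw [Finset.disjoint_left]
          intro x hx hx'
          exact hvw ((Finset.mem_filter.1 hx).2.symm.trans (Finset.mem_filter.1 hx').2)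
      have e2 : DK.card ≤ ∑ v ∈ J, (D.filter (fun d => ∃ x ∈ O, f x = v ∧ d ∉ H x)).card :=
        Finset.card_biUnion_le
      have e3 : ∑ v ∈ J, (D.filter (fun d => ∃ x ∈ O, f x = v ∧ d ∉ H x)).card + J.card ≤
          ∑ v ∈ J, (O.filter (fun x => f x = v)).card := by
        rw [Finset.card_eq_sum_ones, ← Finset.sum_add_distrib]
        refine Finset.sum_le_sum (fun v hv => ?_)
        exact (Finset.mem_filter.1 (hJ hv)).2
      omega
    have hKne : K.Nonempty := by
      rw [← Finset.card_pos]
      omega
    have h3 := hr K (Finset.filter_subset _ _) hKne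
    have h4 : (D : Set α) ∪ {w | w ∈ W ∧ ∀ v ∈ J, ∀ x ∈ O.filter (fun x => f x = v), w ∈ H x} ⊆
        (⋂ x ∈ K, H x) ∪ (DK : Set α) := by
      intro e he
      by_cases hall : ∀ x ∈ K, e ∈ H x
      · exact Or.inl (by simpa using hall)
      push Not at hall
      obtain ⟨x, hxK, hex⟩ := hall
      obtain ⟨hxO, hxJ⟩ := Finset.mem_filter.1 hxK
      rcases he with he | ⟨_, he⟩
      · refine Or.inr ?_
        rw [Finset.mem_coe, hDK, Finset.mem_biUnion]
        exact ⟨f x, hxJ, Finset.mem_filter.2 ⟨he, x, hxO, rfl, hex⟩⟩
      · exact absurd (he (f x) hxJ x (Finset.mem_filter.2 ⟨hxO, rfl⟩)) hex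
    have h5 : rk M ((D : Set α) ∪
        {w | w ∈ W ∧ ∀ v ∈ J, ∀ x ∈ O.filter (fun x => f x = v), w ∈ H x}) ≤
        rk M (⋂ x ∈ K, H x) + DK.card := by
      refine (rk_mono M h4).trans ?_
      have := rk_union_le M (X := ⋂ x ∈ K, H x) (Y := (DK : Set α)) DK.finite_toSet
      rwa [ncard_coe_finset] at this
    exact lt_of_le_of_lt h5 (by omega)

/-- The counting lemma with `j = 0` and its numerical consequence: if every element of `W` is
outside of at most two of the `H x`, and every `X ⊆ W` such that `D ∪ (W \ X)` has rank smaller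
than `r` has at least `g` elements, then `g * (|O| - |D|) ≤ 2 * |W|`. -/
theorem cnt_card (M : Matroid α) [M.Finite] (H : V → Set α) (O : Finset V) (D W : Finset α)
    (r g : ℕ)
    (hr : ∀ K ⊆ O, K.Nonempty → rk M (⋂ x ∈ K, H x) + K.card ≤ r)
    (h2 : ∀ d ∈ D, ∃ a b : V, ∀ x ∈ O, d ∉ H x → x = a ∨ x = b)
    (h2' : ∀ w ∈ W, ∃ a b : V, ∀ x ∈ O, w ∉ H x → x = a ∨ x = b)
    (hg : ∀ X ⊆ W, rk M ((D : Set α) ∪ ((W : Set α) \ (X : Set α))) < r → g ≤ X.card) :
    g * O.card ≤ 2 * W.card + g * D.card := by
  classical
  obtain ⟨T, S, hT, hS, hSd, hrk⟩ := cnt M H O D (W : Set α) r 0 (by simpa using hr) h2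
  set X : V → Finset α := fun v => W.filter (fun w => ∃ x ∈ S v, w ∉ H x) with hX
  have h1 : ∀ v ∈ T, g ≤ (X v).card := by
    intro v hv
    refine hg (X v) (Finset.filter_subset _ _) ?_
    have h3 := hrk {v} (by simpa using hv) (by simp)
    refine lt_of_le_of_lt (rk_mono M (union_subset_union_right _ ?_)) h3
    rintro w ⟨hw, hwX⟩
    refine ⟨hw, ?_⟩
    intro u hu x hx
    rw [Finset.mem_singleton] at hu
    subst hu
    by_contra hcon
    exact hwX (Finset.mem_coe.2 (Finset.mem_filter.2 ⟨Finset.mem_coe.1 hw, x, hx, hcon⟩))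
  have h3 : ∑ v ∈ T, (X v).card ≤ 2 * W.card := by
    have e1 : ∑ v ∈ T, (X v).card = ∑ w ∈ W, (T.filter (fun v => ∃ x ∈ S v, w ∉ H x)).card := by
      simp only [hX, Finset.card_filter]
      rw [Finset.sum_comm]
    rw [e1]
    have e2 : ∀ w ∈ W, (T.filter (fun v => ∃ x ∈ S v, w ∉ H x)).card ≤ 2 := by
      intro w hw
      obtain ⟨a, b, hab⟩ := h2' w hw
      by_contra hcon
      push Not at hcon
      obtain ⟨u, v, z, hu, hv, hz, huv, huz, hvz⟩ := Finset.two_lt_card_iff.1 hcon
      obtain ⟨hu1, xu, hxu, hwu⟩ := Finset.mem_filter.1 hu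
      obtain ⟨hv1, xv, hxv, hwv⟩ := Finset.mem_filter.1 hv
      obtain ⟨hz1, xz, hxz, hwz⟩ := Finset.mem_filter.1 hz
      have d1 := Finset.disjoint_left.1 (hSd u hu1 v hv1 huv) hxu
      have d2 := Finset.disjoint_left.1 (hSd u hu1 z hz1 huz) hxu
      have d3 := Finset.disjoint_left.1 (hSd v hv1 z hz1 hvz) hxv
      have n1 : xu ≠ xv := fun h => d1 (h ▸ hxv)
      have n2 : xu ≠ xz := fun h => d2 (h ▸ hxz)
      have n3 : xv ≠ xz := fun h => d3 (h ▸ hxz)
      rcases hab xu ((hS u hu1).1 hxu) hwu with h | h <;>
      rcases hab xv ((hS v hv1).1 hxv) hwv with h' | h' <;>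
      rcases hab xz ((hS z hz1).1 hxz) hwz with h'' | h'' <;>
      first
        | exact n1 (h.trans h'.symm)
        | exact n2 (h.trans h''.symm)
        | exact n3 (h'.trans h''.symm)
    calc ∑ w ∈ W, (T.filter (fun v => ∃ x ∈ S v, w ∉ H x)).card ≤ ∑ _w ∈ W, 2 :=
          Finset.sum_le_sum e2
      _ = 2 * W.card := by rw [Finset.sum_const, smul_eq_mul, mul_comm]
  have h4 : T.card * g ≤ ∑ v ∈ T, (X v).card := by
    calc T.card * g = ∑ _v ∈ T, g := by rw [Finset.sum_const, smul_eq_mul]
      _ ≤ _ := Finset.sum_le_sum h1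
  have h5 : g * O.card ≤ g * (D.card + T.card) := Nat.mul_le_mul_left g hT
  have h6 : g * (D.card + T.card) = g * D.card + T.card * g := by ring
  omega

end BIC.Cnt
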