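import Pool.Agent.Helper63.G.RcntGrid

/-!
# Locations over a spanning bicircular restriction, and the existence of exceptional elements

`Hx M S ends w` is the flat spanned by the elements of `S` avoiding the vertex `w`.  For a
connected graph the intersection of the `Hx w`, `w ∈ K`, `K ≠ V`, has corank at least `|K|`.
If `M / D` restricted to `W` is cobicircular for a large grid, then some element of `D` has at
least three locations, even modulo a set of bounded rank.
-/

open Set BIC BICS
open scoped Matroid

namespace BIC.Cnt

variable {α V : Type*}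

/-- The flat of the elements avoiding `w`. -/
def Hx (M : Matroid α) (S : Set α) (ends : α → Sym2 V) (w : V) : Set α :=
  M.closure (ins S ends {w}ᶜ)

section loc

variable {M : Matroid α} {S : Set α} {ends : α → Sym2 V}

lemma mem_Hx (hS : S ⊆ M.E) {e : α} (he : e ∈ S) {w : V} (hw : w ∉ ends e) :
    e ∈ Hx M S ends w := by
  refine M.mem_closure_of_mem' ?_ (hS he)
  refine ⟨he, fun v hv => ?_⟩
  simp only [Set.mem_compl_iff, Set.mem_singleton_iff]
  rintro rfl
  exact hw hv

lemma notMem_Hx [M.Finite] (hB : Bic M S ends) {e : α} (he : e ∈ S) {w : V}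
    (hw : w ∈ ends e) : e ∉ Hx M S ends w := by
  classical
  intro hcon
  set A := ins S ends {w}ᶜ with hA
  have hAE : A ⊆ M.E := fun x hx => hB.sub hx.1
  obtain ⟨I, hI⟩ := M.exists_isBasis A hAE
  have hIS : I ⊆ S := fun x hx => (hI.subset hx).1
  obtain ⟨φ, hφ, hφe⟩ := Bic_choice hB hI.indep hIS (M.ground_finite.subset hI.indep.subset_ground)
  have heA : e ∉ A := by
    intro h
    exact h.2 w hw rfl
  have heI : e ∉ I := fun h => heA (hI.subset h)
  have hwI : ∀ x ∈ I, φ x ≠ w := by
    intro x hx h
    exact (hI.subset hx).2 w (h ▸ hφe x hx) rfl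
  have hind : M.Indep (insert e I) := by
    refine hB.ind (insert e I) (Function.update φ e w) (insert_subset he hIS) ?_ ?_
    · intro x hx y hy hxy
      by_cases hxe : x = e
      · by_cases hye : y = e
        · rw [hxe, hye]
        · have hy' : y ∈ I := by
            rcases hy with hy | hy
            · exact absurd hy hye
            · exact hy
          rw [hxe, Function.update_self, Function.update_of_ne hye] at hxy
          exact absurd hxy.symm (hwI y hy')
      · have hx' : x ∈ I := by
          rcases hx with hx | hx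
          · exact absurd hx hxe
          · exact hx
        by_cases hye : y = e
        · rw [hye, Function.update_self, Function.update_of_ne hxe] at hxy
          exact absurd hxy (hwI x hx')
        · have hy' : y ∈ I := by
            rcases hy with hy | hy
            · exact absurd hy hye
            · exact hy
          rw [Function.update_of_ne hye, Function.update_of_ne hxe] at hxy
          exact hφ hx' hy' hxy
    · intro x hx
      by_cases hxe : x = e
      · rw [hxe, Function.update_self]; exact hw
      · rw [Function.update_of_ne hxe]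
        rcases hx with hx | hx
        · exact absurd hx hxe
        · exact hφe x hx
  have h1 : e ∈ M.closure I := by
    rw [hI.closure_eq_closure]
    exact hcon
  exact (hI.indep.notMem_closure_iff_of_notMem heI (hB.sub he)).2 hind h1

lemma isFlat_Hx (w : V) : M.IsFlat (Hx M S ends w) := M.isFlat_closure _

/-- The intersection of the flats `Hx w`, `w ∈ K ≠ V`, has corank at least `|K|`. -/
lemma rk_iInter_Hx [M.Finite] [Fintype V] (hB : Bic M S ends)
    (hconn : ∀ K : Finset V, K.Nonempty → K ≠ Finset.univ →
      ∃ e ∈ S, ∃ x ∈ K, ∃ y, y ∉ K ∧ ends e = s(x, y))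
    (K : Finset V) (hK : K ≠ Finset.univ) :
    rk M (M.E ∩ ⋂ x ∈ K, Hx M S ends x) + K.card ≤ rk M M.E := by
  classical
  induction hn : K.card generalizing K with
  | zero =>
    rw [Finset.card_eq_zero] at hn
    subst hn
    simp
  | succ n ih =>
    have hKne : K.Nonempty := by
      rw [← Finset.card_pos]; omega
    obtain ⟨e, heS, x, hxK, y, hyK, hexy⟩ := hconn K hKne hK
    have hK' : K.erase x ≠ Finset.univ := by
      intro h
      have := Finset.mem_univ x
      rw [← h] at this
      exact (Finset.notMem_erase x K) this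
    have h1 := ih (K.erase x) hK' (by rw [Finset.card_erase_of_mem hxK]; omega)
    set F := M.E ∩ ⋂ z ∈ K.erase x, Hx M S ends z with hF
    have h2 : M.E ∩ ⋂ z ∈ K, Hx M S ends z = F ∩ Hx M S ends x := by
      ext a
      simp only [hF, Set.mem_inter_iff, Set.mem_iInter, Finset.mem_erase]
      constructor
      · rintro ⟨h3, h4⟩
        exact ⟨⟨h3, fun z hz => h4 z hz.2⟩, h4 x hxK⟩
      · rintro ⟨⟨h3, h4⟩, h5⟩
        refine ⟨h3, fun z hz => ?_⟩
        by_cases hzx : z = x
        · rw [hzx]; exact h5
        · exact h4 z ⟨hzx, hz⟩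
    have heF : e ∈ F := by
      refine ⟨hB.sub heS, ?_⟩
      simp only [Set.mem_iInter]
      intro z hz
      obtain ⟨hzx, hzK⟩ := Finset.mem_erase.1 hz
      refine mem_Hx hB.sub heS ?_
      rw [hexy, Sym2.mem_iff]
      rintro (h | h)
      · exact hzx h
      · exact hyK (h ▸ hzK)
    have heH : e ∉ Hx M S ends x := notMem_Hx hB heS (by rw [hexy]; simp)
    -- `F ∩ Hx x` is a flat not containing `e`
    have hflat : M.closure (F ∩ Hx M S ends x) ⊆ Hx M S ends x := by
      refine (M.closure_subset_closure inter_subset_right).trans ?_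
      exact (isFlat_Hx (M := M) (S := S) (ends := ends) x).closure.subset
    have h3 : e ∉ M.closure (F ∩ Hx M S ends x) := fun h => heH (hflat h)
    have h4 : rk M (insert e (F ∩ Hx M S ends x)) = rk M (F ∩ Hx M S ends x) + 1 := by
      have h5 := M.eRk_insert_eq_add_one (X := F ∩ Hx M S ends x) (e := e) ⟨hB.sub heS, h3⟩
      rw [← cast_rk, ← cast_rk] at h5
      exact_mod_cast h5
    have h5 : rk M (insert e (F ∩ Hx M S ends x)) ≤ rk M F := by
      refine rk_mono M (insert_subset heF inter_subset_left)
    rw [h2]
    omega

end loc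

/-- **Exceptional elements exist.** -/
theorem exists_exceptional [Fintype V] [DecidableEq V] {M : Matroid α} [M.Finite] {C : Set α}
    {ends₁ : α → Sym2 V} (hB : Bic M C ends₁)
    (hconn : ∀ K : Finset V, K.Nonempty → K ≠ Finset.univ →
      ∃ e ∈ C, ∃ x ∈ K, ∃ y, y ∉ K ∧ ends₁ e = s(x, y))
    (hfull : rk M M.E = Fintype.card V)
    (D W : Finset α) (hDE : (D : Set α) ⊆ M.E) (hWC : (W : Set α) ⊆ C)
    (hDW : Disjoint (D : Set α) (W : Set α)) (hD : M.Indep (D : Set α))
    (hrk : rk M ((W : Set α) ∪ (D : Set α)) = Fintype.card V)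
    (ends₂ : α → Sym2 (ℕ × ℕ)) (n : ℕ) (hn : 2 ≤ n) (hG : Grd (W : Set α) ends₂ 0 0 n n)
    (hB2 : Bic ((M ／ (D : Set α)) ↾ (W : Set α))✶ (W : Set α) ends₂)
    (X : Set α) (h : ℕ) (hX : rk M X ≤ h) (hnh : 6 * n + 325 * h < n * n) :
    ∃ d ∈ D, ∀ U : Finset V, U.card ≤ 2 →
      d ∉ M.closure ((M.E ∩ ⋂ x ∈ Uᶜ, Hx M C ends₁ x) ∪ X) := by
  classical
  by_contra hcon
  push Not at hcon
  have hWE : (W : Set α) ⊆ M.E := hWC.trans hB.sub
  set F : Finset V → Set α := fun U =>
    if U = ∅ then ∅ else M.E ∩ ⋂ x ∈ Uᶜ, Hx M C ends₁ x with hFdef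
  have hFmono : ∀ U U' : Finset V, U ⊆ U' → F U ⊆ F U' := by
    intro U U' hUU
    simp only [hFdef]
    by_cases h0 : U = ∅
    · rw [if_pos h0]; exact Set.empty_subset _
    · have h1 : U' ≠ ∅ := by
        rintro rfl
        exact h0 (Finset.subset_empty.1 hUU)
      rw [if_neg h0, if_neg h1]
      refine inter_subset_inter_right _ ?_
      intro a ha
      simp only [Set.mem_iInter] at ha ⊢
      intro x hx
      refine ha x ?_
      rw [Finset.mem_compl] at hx ⊢
      exact fun h => hx (hUU h)
  have hFrk : ∀ U : Finset V, rk M (F U) ≤ U.card := by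
    intro U
    simp only [hFdef]
    by_cases h0 : U = ∅
    · rw [if_pos h0, h0, Finset.card_empty]
      have := rk_le_ncard M (X := (∅ : Set α)) Set.finite_empty
      rwa [Set.ncard_empty] at this
    · rw [if_neg h0]
      have h1 : Uᶜ ≠ Finset.univ := by
        intro h
        exact h0 (by simpa using h)
      have h2 := rk_iInter_Hx hB hconn Uᶜ h1
      have h3 := Finset.card_compl_add_card U
      omega
  -- a default vertex
  have hV : Nonempty V := by
    rw [← Fintype.card_pos_iff]
    have h1 := grd_card_ge hG W.finite_toSet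
    by_contra h0
    have h2 : Fintype.card V = 0 := by omega
    have hsub : (W : Set α) = ∅ := by
      rw [Set.eq_empty_iff_forall_notMem]
      intro e he
      have := Fintype.card_eq_zero_iff.1 h2
      exact this.elim (ends₁ e).out.1
    rw [hsub, Set.ncard_empty] at h1
    have h3 : 1 ≤ n * (n - 1) := Nat.mul_pos (by omega) (by omega)
    omega
  obtain ⟨v₀⟩ := hV
  have hchoice : ∀ e, ∃ U : Finset V, (e ∈ D ∨ e ∈ W) →
      U.card ≤ 2 ∧ e ∈ M.closure (F U ∪ X) := by
    intro e
    by_cases he : e ∈ D ∨ e ∈ W
    · by_cases heW : e ∈ W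
      · refine ⟨(ends₁ e).toFinset, fun _ => ⟨?_, ?_⟩⟩
        · induction ends₁ e with
          | _ a b =>
            refine (Finset.card_le_card (t := {a, b}) ?_).trans Finset.card_le_two
            intro y hy
            simpa using hy
        · have hne : (ends₁ e).toFinset ≠ ∅ := by
            obtain ⟨v, hv⟩ := exists_mem_ends ends₁ e
            intro h
            have : v ∈ (ends₁ e).toFinset := by simpa using hv
            rw [h] at this
            simp at this
          have h1 : e ∈ F (ends₁ e).toFinset := by
            simp only [hFdef, if_neg hne]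
            refine ⟨hWE heW, ?_⟩
            simp only [Set.mem_iInter]
            intro x hx
            refine mem_Hx hB.sub (hWC heW) ?_
            rw [Finset.mem_compl] at hx
            simpa using hx
          exact M.mem_closure_of_mem' (Or.inl h1) (hWE heW)
      · have heD : e ∈ D := he.resolve_right heW
        obtain ⟨U, hU, hUe⟩ := hcon e heD
        by_cases h0 : U = ∅
        · refine ⟨{v₀}, fun _ => ⟨by simp, ?_⟩⟩
          have hne : ({v₀} : Finset V) ≠ ∅ := by simp
          refine M.closure_subset_closure ?_ hUe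
          refine union_subset_union_left _ ?_
          simp only [hFdef, if_neg hne]
          refine inter_subset_inter_right _ ?_
          intro a ha
          simp only [Set.mem_iInter] at ha ⊢
          intro x _
          exact ha x (by rw [h0]; simp)
        · refine ⟨U, fun _ => ⟨hU, ?_⟩⟩
          simp only [hFdef, if_neg h0]
          exact hUe
    · exact ⟨∅, fun h => absurd h he⟩
  choose S hS using hchoice
  have := rcnt_grid M D W hDE hWE hDW hD hrk F hFmono hFrk X h hX S hS ends₂ n hn hG hB2
  omega

end BIC.Cnt
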