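import Pool.Agent.Helper63.G.Loc

/-!
# Contraction of an element with a pivot: locations behave like supports of vectors

If the vertex `x` is a location of `z` (that is, `z` is not in `Hx x`), then the contraction of
`z` is bicircular on the graph without `x`.  For another element `f` and a vertex `y ≠ x`:

* `x` not a location of `f` and `y` a location of `f`: `y` is a location of `f` in `M / z`;
* `x` a location of `f` and `y` a location of exactly one of `f` and `z`: `y` is a location of `f`
  in `M / z`;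
* `x`, `y` no locations of `f` and `rk (ins S {x, y}ᶜ) + 2 ≥ rk M`: `y` is not a location of `f` in
  `M / z`;
* `y` a location of neither `f` nor `z`, and `{x, y}` as before: `y` is not a location of `f`.
-/

open Set BIC BICS
open scoped Matroid

namespace BIC.Cnt

variable {α V : Type*} {M : Matroid α} {S : Set α} {ends : α → Sym2 V}

/-- Exchange: inside a flat not containing `z`, the span of `insert z A` is the span of `A`. -/
lemma mem_closure_of_insert {A F : Set α} (hF : M.IsFlat F) (hA : A ⊆ F) {z f : α}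
    (hz : z ∉ F) (hf : f ∈ F) (h : f ∈ M.closure (insert z A)) : f ∈ M.closure A := by
  by_contra hcon
  have h1 : z ∈ M.closure (insert f A) :=
    (Matroid.mem_closure_insert hcon h)
  have h2 : M.closure (insert f A) ⊆ F := by
    refine (M.closure_subset_closure (insert_subset hf hA)).trans ?_
    exact hF.closure.subset
  exact hz (h2 h1)

lemma ins_sub_Hx (hS : S ⊆ M.E) {W : Set V} {w : V} (hw : w ∉ W) :
    ins S ends W ⊆ Hx M S ends w := by
  rintro e ⟨he, hW⟩
  exact mem_Hx hS he (fun h => hw (hW w h))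

/-- The contraction of `z` with pivot `x`. -/
theorem Bic_pivot (hB : Bic M S ends) {z : α} (hz : z ∈ M.E) {x : V}
    (hzx : z ∉ Hx M S ends x) : Bic (M ／ {z}) (ins S ends {x}ᶜ) ends where
  sub := by
    intro e he
    rw [Matroid.contract_ground]
    refine ⟨hB.sub he.1, ?_⟩
    rintro rfl
    exact hzx (ins_sub_Hx hB.sub (W := {x}ᶜ) (by simp) he)
  ind := by
    intro F φ hF hφ hφe
    have h1 : M.Indep F := hB.ind F φ (fun e he => (hF he).1) hφ hφe
    have hFx : M.closure F ⊆ Hx M S ends x := M.closure_subset_closure hF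
    have hzF : z ∉ M.closure F := fun h => hzx (hFx h)
    have hzF' : z ∉ F := fun h => hzF (M.mem_closure_of_mem' h hz)
    have hzn : M.IsNonloop z := by
      rw [← Matroid.indep_singleton]
      rw [Matroid.indep_singleton, Matroid.isNonloop_iff]
      refine ⟨?_, hz⟩
      intro hl
      exact hzF (hl.mem_closure F)
    rw [hzn.contractElem_indep_iff]
    refine ⟨hzF', ?_⟩
    exact (h1.notMem_closure_iff_of_notMem hzF' hz).1 hzF
  rk := by
    intro W
    rw [Matroid.eRk_le_iff]
    intro I hI hI'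
    have h1 : M.Indep I := hI'.of_contract
    refine le_trans ?_ (hB.rk W)
    rw [← h1.eRk_eq_encard]
    exact M.eRk_mono (fun e he => ⟨(hI he).1.1, (hI he).2⟩)

/-- The flat of the vertex `y` after the contraction of `z` with pivot `x`. -/
lemma mem_Hx_pivot {z f : α} {x y : V} (hfz : f ≠ z) :
    f ∈ Hx (M ／ {z}) (ins S ends {x}ᶜ) ends y ↔ f ∈ M.closure (insert z (ins S ends {x, y}ᶜ)) := by
  have h1 : ins (ins S ends {x}ᶜ) ends {y}ᶜ = ins S ends {x, y}ᶜ := by
    ext e
    constructor
    · rintro ⟨⟨h1, h2⟩, h3⟩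
      refine ⟨h1, fun v hv => ?_⟩
      have h4 := h2 v hv
      have h5 := h3 v hv
      simp only [Set.mem_compl_iff, Set.mem_singleton_iff, Set.mem_insert_iff] at h4 h5 ⊢
      tauto
    · rintro ⟨h1, h2⟩
      refine ⟨⟨h1, fun v hv => ?_⟩, fun v hv => ?_⟩
      · have h4 := h2 v hv
        simp only [Set.mem_compl_iff, Set.mem_singleton_iff, Set.mem_insert_iff] at h4 ⊢
        tauto
      · have h4 := h2 v hv
        simp only [Set.mem_compl_iff, Set.mem_singleton_iff, Set.mem_insert_iff] at h4 ⊢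
        tauto
  unfold Hx
  rw [h1, Matroid.contract_closure_eq, union_singleton]
  constructor
  · exact fun h => h.1
  · exact fun h => ⟨h, hfz⟩

/-- `x` is not a location of `f`: the locations of `f` stay. -/
theorem loc_pivot_of_notMem (hS : S ⊆ M.E) {z f : α} {x y : V} (hzx : z ∉ Hx M S ends x)
    (hfx : f ∈ Hx M S ends x) (hfy : f ∉ Hx M S ends y) :
    f ∉ Hx (M ／ {z}) (ins S ends {x}ᶜ) ends y := by
  have hfz : f ≠ z := by rintro rfl; exact hzx hfx
  rw [mem_Hx_pivot hfz]
  intro h
  have h1 := mem_closure_of_insert (isFlat_Hx x) (ins_sub_Hx hS (W := {x, y}ᶜ) (by simp)) hzx hfx h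
  exact hfy (M.closure_subset_closure_of_subset_closure
    (ins_sub_Hx hS (W := {x, y}ᶜ) (by simp)) h1)

/-- `x` is a location of `f`, and `y` of `f` but not of `z`: `y` is a location of `f`. -/
theorem loc_pivot_of_loc (hS : S ⊆ M.E) {z f : α} {x y : V} (hfz : f ≠ z)
    (hzy : z ∈ Hx M S ends y) (hfy : f ∉ Hx M S ends y) :
    f ∉ Hx (M ／ {z}) (ins S ends {x}ᶜ) ends y := by
  rw [mem_Hx_pivot hfz]
  intro h
  refine hfy (M.closure_subset_closure_of_subset_closure ?_ h)
  exact insert_subset hzy (ins_sub_Hx hS (W := {x, y}ᶜ) (by simp))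

/-- `x` is a location of `f`, and `y` of `z` but not of `f`: `y` becomes a location of `f`. -/
theorem loc_pivot_of_pivot (hS : S ⊆ M.E) {z f : α} {x y : V} (hzy : z ∉ Hx M S ends y)
    (hfx : f ∉ Hx M S ends x) (hfy : f ∈ Hx M S ends y) :
    f ∉ Hx (M ／ {z}) (ins S ends {x}ᶜ) ends y := by
  have hfz : f ≠ z := by rintro rfl; exact hzy hfy
  rw [mem_Hx_pivot hfz]
  intro h
  have h1 := mem_closure_of_insert (isFlat_Hx y) (ins_sub_Hx hS (W := {x, y}ᶜ) (by simp)) hzy hfy h
  exact hfx (M.closure_subset_closure_of_subset_closure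
    (ins_sub_Hx hS (W := {x, y}ᶜ) (by simp)) h1)

/-- `y` is a location of neither `f` nor `z`. -/
theorem notLoc_pivot [M.Finite] (hB : Bic M S ends) {z f : α} {x y : V}
    (hzE : z ∈ M.E) (hfE : f ∈ M.E) (hfz : f ≠ z)
    (hr : rk M M.E ≤ rk M (ins S ends {x, y}ᶜ) + 2)
    (hy0 : ∃ e ∈ S, y ∈ ends e) (hzx : z ∉ Hx M S ends x)
    (hzy : z ∈ Hx M S ends y) (hfy : f ∈ Hx M S ends y) :
    f ∈ Hx (M ／ {z}) (ins S ends {x}ᶜ) ends y := by
  rw [mem_Hx_pivot hfz]
  set A := ins S ends {x, y}ᶜ with hA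
  have hAy : A ⊆ Hx M S ends y := ins_sub_Hx hB.sub (by simp)
  have hAx : A ⊆ Hx M S ends x := ins_sub_Hx hB.sub (by simp)
  have hzA : z ∉ M.closure A := fun h => hzx (M.closure_subset_closure_of_subset_closure hAx h)
  by_contra hcon
  -- `A`, `z`, `f` have rank `rk A + 2` inside the proper flat `Hx y`
  have h1 : rk M (insert z A) = rk M A + 1 := by
    have h5 := M.eRk_insert_eq_add_one (X := A) (e := z) ⟨hzE, hzA⟩
    rw [← cast_rk, ← cast_rk] at h5
    exact_mod_cast h5
  have h2 : rk M (insert f (insert z A)) = rk M (insert z A) + 1 := by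
    have h5 := M.eRk_insert_eq_add_one (X := insert z A) (e := f) ⟨hfE, hcon⟩
    rw [← cast_rk, ← cast_rk] at h5
    exact_mod_cast h5
  obtain ⟨e, heS, hye⟩ := hy0
  have he : e ∉ Hx M S ends y := notMem_Hx hB heS hye
  have h3 : insert f (insert z A) ⊆ Hx M S ends y := insert_subset hfy (insert_subset hzy hAy)
  have h4 : rk M (insert e (Hx M S ends y)) = rk M (Hx M S ends y) + 1 := by
    have h5 := M.eRk_insert_eq_add_one (X := Hx M S ends y) (e := e) ⟨hB.sub heS, by
      intro h
      exact he ((isFlat_Hx (M := M) (S := S) (ends := ends) y).closure.subset h)⟩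
    rw [← cast_rk, ← cast_rk] at h5
    exact_mod_cast h5
  have h5 : rk M (insert e (Hx M S ends y)) ≤ rk M M.E := by
    refine rk_mono M (insert_subset (hB.sub heS) ?_)
    exact M.closure_subset_ground _
  have h6 := rk_mono M h3
  omega

/-- Two vertices which are not locations of `f`: then `f` is spanned by the elements avoiding both
of them. -/
theorem mem_closure_of_notLoc [M.Finite] (hB : Bic M S ends) {f : α} {x y : V}
    (hfE : f ∈ M.E) (hr : rk M M.E ≤ rk M (ins S ends {x, y}ᶜ) + 2)
    (hxy0 : ∃ e ∈ S, y ∈ ends e ∧ x ∉ ends e) (hx0 : ∃ e ∈ S, x ∈ ends e)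
    (hfx : f ∈ Hx M S ends x) (hfy : f ∈ Hx M S ends y) :
    f ∈ M.closure (ins S ends {x, y}ᶜ) := by
  set A := ins S ends {x, y}ᶜ with hA
  have hAy : A ⊆ Hx M S ends y := ins_sub_Hx hB.sub (by simp)
  have hAx : A ⊆ Hx M S ends x := ins_sub_Hx hB.sub (by simp)
  by_contra hcon
  obtain ⟨e, heS, hye, hxe⟩ := hxy0
  obtain ⟨e', heS', hxe'⟩ := hx0
  have h1 : rk M (insert f A) = rk M A + 1 := by
    have h5 := M.eRk_insert_eq_add_one (X := A) (e := f) ⟨hfE, hcon⟩
    rw [← cast_rk, ← cast_rk] at h5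
    exact_mod_cast h5
  have hsy : insert f A ⊆ Hx M S ends y := insert_subset hfy hAy
  have hsx : insert f A ⊆ Hx M S ends x := insert_subset hfx hAx
  have h2 : rk M (insert e (insert f A)) = rk M (insert f A) + 1 := by
    have h5 := M.eRk_insert_eq_add_one (X := insert f A) (e := e) ⟨hB.sub heS, fun h =>
      notMem_Hx hB heS hye (M.closure_subset_closure_of_subset_closure hsy h)⟩
    rw [← cast_rk, ← cast_rk] at h5
    exact_mod_cast h5
  have hsx' : insert e (insert f A) ⊆ Hx M S ends x := insert_subset (mem_Hx hB.sub heS hxe) hsx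
  have h3 : rk M (insert e' (insert e (insert f A))) = rk M (insert e (insert f A)) + 1 := by
    have h5 := M.eRk_insert_eq_add_one (X := insert e (insert f A)) (e := e') ⟨hB.sub heS', fun h =>
      notMem_Hx hB heS' hxe' (M.closure_subset_closure_of_subset_closure hsx' h)⟩
    rw [← cast_rk, ← cast_rk] at h5
    exact_mod_cast h5
  have h4 : rk M (insert e' (insert e (insert f A))) ≤ rk M M.E :=
    rk_mono M (insert_subset (hB.sub heS') (insert_subset (hB.sub heS)
      (insert_subset hfE (fun a ha => hB.sub ha.1))))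
  omega

/-- `x` and `y` no locations of `f`: `y` is not a location of `f` after the contraction. -/
theorem notLoc_pivot_of_notMem [M.Finite] (hB : Bic M S ends) {z f : α} {x y : V}
    (hfE : f ∈ M.E) (hr : rk M M.E ≤ rk M (ins S ends {x, y}ᶜ) + 2)
    (hxy0 : ∃ e ∈ S, y ∈ ends e ∧ x ∉ ends e) (hx0 : ∃ e ∈ S, x ∈ ends e)
    (hzx : z ∉ Hx M S ends x) (hfx : f ∈ Hx M S ends x) (hfy : f ∈ Hx M S ends y) :
    f ∈ Hx (M ／ {z}) (ins S ends {x}ᶜ) ends y := by
  have hfz : f ≠ z := by rintro rfl; exact hzx hfx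
  rw [mem_Hx_pivot hfz]
  exact M.closure_subset_closure (subset_insert _ _)
    (mem_closure_of_notLoc hB hfE hr hxy0 hx0 hfx hfy)

end BIC.Cnt
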