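import Pool.Agent.Helper63.G.Cnt

/-!
# The robust counting lemma RCNT

Every element `e` of `D ∪ W` has a set `S e` of at most two locations in a finite set `V`, and for
every set `K` of locations the elements without location in `K` have rank at most
`|V| - |K| + h`.  If the contraction by `D`, restricted to `W`, is cobicircular for a simple graph
of maximal degree at most `Δ`, then `5 (|V| - |D|) ≤ 2 |W| + (80 Δ + 5) h`.
-/

open Set

namespace BIC.Cnt

open BIC

variable {α V U : Type*}

open Classical in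
/-- At most four different non-loop edges have an injective choice of ends. -/
lemma exists_ends_of_card_le_four (A : Finset α) (ends : α → Sym2 U) (hA : A.card ≤ 4)
    (hinj : InjOn ends (A : Set α)) (hnd : ∀ e ∈ A, ¬ (ends e).IsDiag) :
    ∃ ψ : α → U, InjOn ψ (A : Set α) ∧ ∀ e ∈ A, ψ e ∈ ends e := by
  rcases isEmpty_or_nonempty U with hU | hU
  · rcases A.eq_empty_or_nonempty with rfl | ⟨e, he⟩
    · rcases isEmpty_or_nonempty α with hα | ⟨⟨a⟩⟩
      · exact ⟨fun a => hα.elim a, by simp, by simp⟩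
      · exact hU.elim (ends a).out.1
    · exact hU.elim (ends e).out.1
  -- Hall's condition
  have hall : ∀ B : Finset {e // e ∈ A}, B.card ≤ (B.biUnion (fun e => (ends e.1).toFinset)).card := by
    intro B
    by_contra hcon
    push Not at hcon
    set T := B.biUnion (fun e => (ends e.1).toFinset) with hT
    have hB4 : B.card ≤ 4 := by
      refine le_trans ?_ hA
      have := Finset.card_le_univ B
      simpa using this
    have hmem : ∀ e ∈ B, ∀ z ∈ ends e.1, z ∈ T := by
      intro e he z hz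
      rw [hT, Finset.mem_biUnion]
      exact ⟨e, he, by simpa using hz⟩
    -- the edges of `B` are pairs of elements of `T`
    have hle : B.card ≤ (T.card).choose 2 := by
      have h1 : B.card = (B.image (fun e => ends e.1)).card := by
        rw [Finset.card_image_of_injOn]
        intro x _ y _ hxy
        exact Subtype.ext (hinj x.2 y.2 hxy)
      rw [h1, ← Finset.card_powersetCard]
      refine Finset.card_le_card_of_injOn (fun z => z.toFinset) ?_ ?_
      · intro z hz
        obtain ⟨e, he, rfl⟩ := Finset.mem_image.1 (Finset.mem_coe.1 hz)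
        rw [Finset.mem_coe, Finset.mem_powersetCard]
        refine ⟨fun y hy => hmem e he y (by simpa using hy), ?_⟩
        exact Sym2.card_toFinset_of_not_isDiag _ (hnd e.1 e.2)
      · intro z _ z' _ h
        ext y
        have : y ∈ z.toFinset ↔ y ∈ z'.toFinset := by
          simp only at h
          rw [h]
        simpa using this
    have hT3 : T.card ≤ 3 := by omega
    have : T.card = 0 ∨ T.card = 1 ∨ T.card = 2 ∨ T.card = 3 := by omega
    have c0 : Nat.choose 0 2 = 0 := rfl
    have c1 : Nat.choose 1 2 = 0 := rfl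
    have c2 : Nat.choose 2 2 = 1 := rfl
    have c3 : Nat.choose 3 2 = 3 := rfl
    rcases this with h | h | h | h
    · rw [h, c0] at hle; omega
    · rw [h, c1] at hle; omega
    · rw [h, c2] at hle; omega
    · rw [h, c3] at hle; omega
  obtain ⟨g, hg, hg'⟩ := (Finset.all_card_le_biUnion_card_iff_exists_injective
    (fun e : {e // e ∈ A} => (ends e.1).toFinset)).1 hall
  obtain ⟨u₀⟩ := hU
  refine ⟨fun e => if h : e ∈ A then g ⟨e, h⟩ else u₀, ?_, ?_⟩
  · intro x hx y hy hxy
    have hx' : x ∈ A := hx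
    have hy' : y ∈ A := hy
    simp only [dif_pos hx', dif_pos hy'] at hxy
    exact congrArg Subtype.val (hg hxy)
  · intro e he
    simp only [dif_pos he]
    simpa using hg' ⟨e, he⟩

/-- **RCNT**, in counting form; `g` is such that any `g` elements of `W` have an injective choice
of ends. -/
theorem rcnt' [Fintype V] (M : Matroid α) [M.Finite] (D W : Finset α) (S : α → Finset V)
    (ends : α → Sym2 U) (h Δ g : ℕ)
    (hr : ∀ K : Finset V, rk M {e | (e ∈ D ∨ e ∈ W) ∧ ∀ x ∈ K, x ∉ S e} + K.card ≤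
      Fintype.card V + h)
    (hS : ∀ e, e ∈ D ∨ e ∈ W → (S e).card ≤ 2)
    (hind : ∀ A ⊆ W, (∃ ψ : α → U, InjOn ψ (A : Set α) ∧ ∀ e ∈ A, ψ e ∈ ends e) →
      Fintype.card V ≤ rk M ((D : Set α) ∪ ((W : Set α) \ (A : Set α))))
    (hsm : ∀ A ⊆ W, A.card ≤ g → ∃ ψ : α → U, InjOn ψ (A : Set α) ∧ ∀ e ∈ A, ψ e ∈ ends e)
    (hdeg : ∀ (u : U) (A : Finset α), A ⊆ W → (∀ e ∈ A, u ∈ ends e) → A.card ≤ Δ) :
    (g + 1) * Fintype.card V ≤
      (g + 1) * D.card + 2 * W.card + (g + 1) * (4 * g * Δ + 1) * h := by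
  classical
  rcases isEmpty_or_nonempty V with hV | ⟨⟨v₀⟩⟩
  · simp
  have hpair : ∀ e, e ∈ D ∨ e ∈ W → ∃ a b : V, ∀ x, x ∈ S e → x = a ∨ x = b := by
    intro e he
    have h1 := hS e he
    by_cases h0 : S e = ∅
    · exact ⟨v₀, v₀, by simp [h0]⟩
    obtain ⟨a, ha⟩ := Finset.nonempty_iff_ne_empty.2 h0
    by_cases h2 : (S e).erase a = ∅
    · refine ⟨a, a, fun x hx => ?_⟩
      by_contra hcon
      push Not at hcon
      have : x ∈ (S e).erase a := Finset.mem_erase.2 ⟨hcon.1, hx⟩
      rw [h2] at this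
      simp at this
    · obtain ⟨b, hb⟩ := Finset.nonempty_iff_ne_empty.2 h2
      refine ⟨a, b, fun x hx => ?_⟩
      by_contra hcon
      push Not at hcon
      obtain ⟨hb1, hb2⟩ := Finset.mem_erase.1 hb
      have h3 : ({a, b, x} : Finset V) ⊆ S e := by
        intro y hy
        simp only [Finset.mem_insert, Finset.mem_singleton] at hy
        rcases hy with rfl | rfl | rfl
        · exact ha
        · exact hb2
        · exact hx
      have h4 := Finset.card_le_card h3
      rw [Finset.card_eq_three.2 ⟨a, b, x, hb1.symm, hcon.1.symm, hcon.2.symm, rfl⟩] at h4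
      omega
  set H : V → Set α := fun x => {e | (e ∈ D ∨ e ∈ W) ∧ x ∉ S e} with hH
  have hnotH : ∀ e, e ∈ D ∨ e ∈ W → ∀ x, e ∉ H x ↔ x ∈ S e := by
    intro e he x
    simp only [hH, Set.mem_ofPred_eq, not_and, not_not]
    exact ⟨fun h => h he, fun h _ => h⟩
  obtain ⟨T, Sv, hT, hSv, hSd, hrk⟩ := cnt M H Finset.univ D (W : Set α) (Fintype.card V) h
    (by
      intro K _ hK
      refine le_trans ?_ (hr K)
      refine Nat.add_le_add_right (rk_mono M ?_) _
      intro e he
      rw [Set.mem_iInter₂] at he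
      obtain ⟨x, hx⟩ := hK
      exact ⟨(he x hx).1, fun y hy => (he y hy).2⟩)
    (by
      intro d hd
      obtain ⟨a, b, hab⟩ := hpair d (Or.inl hd)
      exact ⟨a, b, fun x _ hx => hab x ((hnotH d (Or.inl hd) x).1 hx)⟩)
  rw [Finset.card_univ] at hT
  set Wv : V → Finset α := fun v => W.filter (fun w => ∃ x ∈ Sv v, x ∈ S w) with hWv
  -- every element of `W` is in at most two of the sets `Wv v`
  have htwo : ∀ w ∈ W, (T.filter (fun v => w ∈ Wv v)).card ≤ 2 := by
    intro w hw
    obtain ⟨a, b, hab⟩ := hpair w (Or.inr hw)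
    by_contra hcon
    push Not at hcon
    obtain ⟨u, v, z, hu, hv, hz, huv, huz, hvz⟩ := Finset.two_lt_card_iff.1 hcon
    obtain ⟨hu1, hu2⟩ := Finset.mem_filter.1 hu
    obtain ⟨hv1, hv2⟩ := Finset.mem_filter.1 hv
    obtain ⟨hz1, hz2⟩ := Finset.mem_filter.1 hz
    obtain ⟨xu, hxu, hwu⟩ := (Finset.mem_filter.1 hu2).2
    obtain ⟨xv, hxv, hwv⟩ := (Finset.mem_filter.1 hv2).2
    obtain ⟨xz, hxz, hwz⟩ := (Finset.mem_filter.1 hz2).2
    have d1 := Finset.disjoint_left.1 (hSd u hu1 v hv1 huv) hxu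
    have d2 := Finset.disjoint_left.1 (hSd u hu1 z hz1 huz) hxu
    have d3 := Finset.disjoint_left.1 (hSd v hv1 z hz1 hvz) hxv
    have n1 : xu ≠ xv := fun h => d1 (h ▸ hxv)
    have n2 : xu ≠ xz := fun h => d2 (h ▸ hxz)
    have n3 : xv ≠ xz := fun h => d3 (h ▸ hxz)
    rcases hab xu hwu with h | h <;> rcases hab xv hwv with h' | h' <;>
    rcases hab xz hwz with h'' | h'' <;>
    first
      | exact n1 (h.trans h'.symm)
      | exact n2 (h.trans h''.symm)
      | exact n3 (h'.trans h''.symm)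
  -- touching
  set tch : V → V → Prop := fun u v => ∃ w ∈ Wv u, ∃ w' ∈ Wv v, ∃ z, z ∈ ends w ∧ z ∈ ends w'
    with htch
  set T4 : Finset V := T.filter (fun v => (Wv v).card ≤ g) with hT4
  have htcard : ∀ u ∈ T4, (T4.filter (fun v => tch u v)).card ≤ 4 * g * Δ := by
    intro u hu
    have hu4 : (Wv u).card ≤ g := (Finset.mem_filter.1 hu).2
    have hsub : T4.filter (fun v => tch u v) ⊆
        (Wv u).biUnion (fun w => (ends w).toFinset.biUnion (fun z =>
          (W.filter (fun w' => z ∈ ends w')).biUnion (fun w' => T.filter (fun v => w' ∈ Wv v)))) := by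
      intro v hv
      obtain ⟨hv1, w, hw, w', hw', z, hz, hz'⟩ := Finset.mem_filter.1 hv
      have hv2 : v ∈ T := (Finset.mem_filter.1 hv1).1
      simp only [Finset.mem_biUnion, Finset.mem_filter]
      exact ⟨w, hw, z, by simpa using hz, w', ⟨(Finset.mem_filter.1 hw').1, hz'⟩, hv2, hw'⟩
    refine (Finset.card_le_card hsub).trans ?_
    refine (Finset.card_biUnion_le_card_mul _ _ (2 * (Δ * 2)) ?_).trans ?_
    · intro w _
      refine (Finset.card_biUnion_le_card_mul _ _ (Δ * 2) ?_).trans ?_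
      · intro z _
        refine (Finset.card_biUnion_le_card_mul _ _ 2 ?_).trans ?_
        · intro w' hw'
          exact htwo w' (Finset.mem_filter.1 hw').1
        · refine Nat.mul_le_mul_right 2 (hdeg z _ (Finset.filter_subset _ _) ?_)
          intro e he
          exact (Finset.mem_filter.1 he).2
      · refine Nat.mul_le_mul_right _ ?_
        induction ends w with
        | _ a b =>
          refine (Finset.card_le_card (t := {a, b}) ?_).trans Finset.card_le_two
          intro y hy
          simpa using hy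
    · calc (Wv u).card * (2 * (Δ * 2)) ≤ g * (2 * (Δ * 2)) := Nat.mul_le_mul_right _ hu4
        _ = 4 * g * Δ := by ring
  -- a maximal family of pairwise not touching small sets
  obtain ⟨J, hJT, hJd, hJmax⟩ : ∃ J ⊆ T4, (∀ u ∈ J, ∀ v ∈ J, u ≠ v → ¬ tch u v) ∧
      ∀ v ∈ T4, v ∉ J → ∃ u ∈ J, tch u v := by
    set Fm := T4.powerset.filter (fun J => ∀ u ∈ J, ∀ v ∈ J, u ≠ v → ¬ tch u v) with hFm
    have hne : Fm.Nonempty := ⟨∅, by simp [hFm]⟩
    obtain ⟨J, hJ, hmax⟩ := Finset.exists_max_image Fm Finset.card hne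
    obtain ⟨hJ1, hJ2⟩ := Finset.mem_filter.1 hJ
    rw [Finset.mem_powerset] at hJ1
    refine ⟨J, hJ1, hJ2, ?_⟩
    intro v hv hvJ
    by_contra hcon
    push Not at hcon
    have hsym : ∀ u ∈ J, ¬ tch v u := by
      rintro u hu ⟨w, hw, w', hw', z, hz, hz'⟩
      exact hcon u hu ⟨w', hw', w, hw, z, hz', hz⟩
    have hin : insert v J ∈ Fm := by
      rw [hFm, Finset.mem_filter, Finset.mem_powerset]
      refine ⟨Finset.insert_subset hv hJ1, ?_⟩
      intro a ha b hb hab
      rcases Finset.mem_insert.1 ha with ha' | ha'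
      · rcases Finset.mem_insert.1 hb with hb' | hb'
        · exact absurd (ha'.trans hb'.symm) hab
        · rw [ha']; exact hsym b hb'
      · rcases Finset.mem_insert.1 hb with hb' | hb'
        · rw [hb']; exact hcon a ha'
        · exact hJ2 a ha' b hb' hab
    have := hmax _ hin
    rw [Finset.card_insert_of_notMem hvJ] at this
    omega
  have hJh : J.card ≤ h := by
    by_contra hcon
    push Not at hcon
    have h1 := hrk J (fun v hv => (Finset.mem_filter.1 (hJT hv)).1) hcon
    set A : Finset α := J.biUnion Wv with hA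
    have h2 : Fintype.card V ≤ rk M ((D : Set α) ∪ ((W : Set α) \ (A : Set α))) := by
      refine hind A ?_ ?_
      · intro e he
        obtain ⟨v, _, he⟩ := Finset.mem_biUnion.1 he
        exact (Finset.mem_filter.1 he).1
      · have hch : ∀ v ∈ J, ∃ ψ : α → U, InjOn ψ (Wv v : Set α) ∧ ∀ e ∈ Wv v, ψ e ∈ ends e := by
          intro v hv
          exact hsm (Wv v) (Finset.filter_subset _ _) (Finset.mem_filter.1 (hJT hv)).2
        rcases A.eq_empty_or_nonempty with hA0 | ⟨e₀, he₀⟩
        · rw [hA0]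
          rcases isEmpty_or_nonempty α with hα | ⟨⟨a⟩⟩
          · exact ⟨fun a => hα.elim a, by simp, by simp⟩
          · exact ⟨fun _ => (ends a).out.1, by simp, by simp⟩
        have hchoose : ∀ e, ∃ v, e ∈ A → v ∈ J ∧ e ∈ Wv v := by
          intro e
          by_cases he : e ∈ A
          · obtain ⟨v, hv, hev⟩ := Finset.mem_biUnion.1 he
            exact ⟨v, fun _ => ⟨hv, hev⟩⟩
          · exact ⟨v₀, fun h => absurd h he⟩
        have : Nonempty U := ⟨(ends e₀).out.1⟩
        choose bl hbl using hchoose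
        choose! ψ hψ using hch
        refine ⟨fun e => ψ (bl e) e, ?_, ?_⟩
        · intro x hx y hy hxy
          obtain ⟨hx1, hx2⟩ := hbl x hx
          obtain ⟨hy1, hy2⟩ := hbl y hy
          have ex := (hψ (bl x) hx1).2 x hx2
          have ey := (hψ (bl y) hy1).2 y hy2
          simp only at hxy
          by_cases hb : bl x = bl y
          · rw [hb] at hxy hx2
            exact (hψ (bl y) hy1).1 hx2 hy2 hxy
          · exact absurd ⟨x, hx2, y, hy2, _, ex, hxy ▸ ey⟩ (hJd _ hx1 _ hy1 hb)
        · intro e he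
          obtain ⟨h3, h4⟩ := hbl e he
          exact (hψ (bl e) h3).2 e h4
    refine absurd h1 (not_lt.2 (h2.trans (rk_mono M (union_subset_union_right _ ?_))))
    rintro w ⟨hw, hwA⟩
    refine ⟨hw, fun v hv x hx => ⟨Or.inr (Finset.mem_coe.1 hw), fun hcon => ?_⟩⟩
    refine hwA ?_
    rw [hA]
    exact Finset.mem_coe.2 (Finset.mem_biUnion.2 ⟨v, hv, Finset.mem_filter.2
      ⟨Finset.mem_coe.1 hw, x, hx, hcon⟩⟩)
  have hT4card : T4.card ≤ J.card * (4 * g * Δ + 1) := by
    have hsub : T4 ⊆ J.biUnion (fun u => insert u (T4.filter (fun v => tch u v))) := by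
      intro v hv
      rw [Finset.mem_biUnion]
      by_cases hvJ : v ∈ J
      · exact ⟨v, hvJ, Finset.mem_insert_self _ _⟩
      · obtain ⟨u, hu, huv⟩ := hJmax v hv hvJ
        exact ⟨u, hu, Finset.mem_insert_of_mem (Finset.mem_filter.2 ⟨hv, huv⟩)⟩
    refine (Finset.card_le_card hsub).trans (Finset.card_biUnion_le_card_mul _ _ _ ?_)
    intro u hu
    exact (Finset.card_insert_le _ _).trans (Nat.add_le_add_right (htcard u (hJT hu)) 1)
  have hsum : ∑ v ∈ T, (Wv v).card ≤ 2 * W.card := by
    have e1 : ∑ v ∈ T, (Wv v).card = ∑ w ∈ W, (T.filter (fun v => w ∈ Wv v)).card := by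
      have e2 : ∀ v ∈ T, (Wv v).card = ∑ w ∈ W, if w ∈ Wv v then 1 else 0 := by
        intro v _
        rw [← Finset.card_filter]
        refine congrArg Finset.card ?_
        ext w
        simp only [hWv, Finset.mem_filter]
        tauto
      rw [Finset.sum_congr rfl e2, Finset.sum_comm]
      refine Finset.sum_congr rfl (fun w _ => ?_)
      rw [Finset.card_filter]
    rw [e1]
    calc ∑ w ∈ W, (T.filter (fun v => w ∈ Wv v)).card ≤ ∑ _w ∈ W, 2 := Finset.sum_le_sum htwo
      _ = 2 * W.card := by rw [Finset.sum_const, smul_eq_mul, mul_comm]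
  have hlow : (g + 1) * T.card ≤ ∑ v ∈ T, (Wv v).card + (g + 1) * T4.card := by
    have e1 : (g + 1) * T4.card = ∑ v ∈ T, (if (Wv v).card ≤ g then g + 1 else 0) := by
      rw [← Finset.sum_filter, Finset.sum_const, smul_eq_mul, mul_comm]
    rw [e1, ← Finset.sum_add_distrib]
    calc (g + 1) * T.card = ∑ _v ∈ T, (g + 1) := by
          rw [Finset.sum_const, smul_eq_mul, mul_comm]
      _ ≤ _ := by
        refine Finset.sum_le_sum (fun v _ => ?_)
        split_ifs with h5
        · omega
        · omega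
  have h6 : T4.card ≤ h * (4 * g * Δ + 1) := hT4card.trans (Nat.mul_le_mul_right _ hJh)
  have h7 : (g + 1) * (h * (4 * g * Δ + 1)) = (g + 1) * (4 * g * Δ + 1) * h := by ring
  have h8 : (g + 1) * T4.card ≤ (g + 1) * (h * (4 * g * Δ + 1)) := Nat.mul_le_mul_left _ h6
  have h9 : (g + 1) * Fintype.card V ≤ (g + 1) * (D.card + T.card) := Nat.mul_le_mul_left _ hT
  have h10 : (g + 1) * (D.card + T.card) = (g + 1) * D.card + (g + 1) * T.card := by ring
  omega

/-- **RCNT**, in counting form, for a simple graph of maximal degree at most `Δ`. -/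
theorem rcnt [Fintype V] (M : Matroid α) [M.Finite] (D W : Finset α) (S : α → Finset V)
    (ends : α → Sym2 U) (h Δ : ℕ)
    (hr : ∀ K : Finset V, rk M {e | (e ∈ D ∨ e ∈ W) ∧ ∀ x ∈ K, x ∉ S e} + K.card ≤
      Fintype.card V + h)
    (hS : ∀ e, e ∈ D ∨ e ∈ W → (S e).card ≤ 2)
    (hind : ∀ A ⊆ W, (∃ ψ : α → U, InjOn ψ (A : Set α) ∧ ∀ e ∈ A, ψ e ∈ ends e) →
      Fintype.card V ≤ rk M ((D : Set α) ∪ ((W : Set α) \ (A : Set α))))
    (hinj : InjOn ends (W : Set α)) (hnd : ∀ e ∈ W, ¬ (ends e).IsDiag)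
    (hdeg : ∀ (u : U) (A : Finset α), A ⊆ W → (∀ e ∈ A, u ∈ ends e) → A.card ≤ Δ) :
    5 * Fintype.card V ≤ 5 * D.card + 2 * W.card + (80 * Δ + 5) * h := by
  have h1 := rcnt' M D W S ends h Δ 4 hr hS hind (fun A hA hA4 =>
    exists_ends_of_card_le_four A ends hA4 (hinj.mono (fun e he => hA he))
      (fun e he => hnd e (hA he))) hdeg
  have h2 : (4 + 1) * (4 * 4 * Δ + 1) * h = (80 * Δ + 5) * h := by ring
  omega

end BIC.Cnt
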