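import Pool.Agent.Helper63.G.Rcnt
import Pool.Agent.BICS.RkRect

/-!
# The robust counting lemma for cobicircular grids
-/

open Set BIC BICS
open scoped Matroid

namespace BIC.Cnt

variable {α V : Type*}

/-- A plain `n × n` grid has at least `2 n (n - 1)` edges. -/
lemma grd_card_ge {S : Set α} {ends : α → Sym2 (ℕ × ℕ)} {n : ℕ} (hG : Grd S ends 0 0 n n)
    (hfin : S.Finite) : 2 * (n * (n - 1)) ≤ S.ncard := by
  classical
  have H : ∀ c : Bool × (ℕ × ℕ), c.2.1 < n → c.2.2 + 1 < n → ∃ e ∈ S, ends e =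
      if c.1 then s((c.2.1, c.2.2), (c.2.1, c.2.2 + 1)) else s((c.2.2, c.2.1), (c.2.2 + 1, c.2.1)) := by
    rintro ⟨b, i, j⟩ hi hj
    simp only at hi hj
    cases b
    · obtain ⟨e, he, he'⟩ := hG.surj (j, i) (j + 1, i) (Or.inr ⟨rfl, Or.inl rfl⟩)
        ⟨by simp, by simp only; omega, by simp, by simp only; omega⟩
        ⟨by simp, by simp only; omega, by simp, by simp only; omega⟩
      exact ⟨e, he, by simpa using he'⟩
    · obtain ⟨e, he, he'⟩ := hG.surj (i, j) (i, j + 1) (Or.inl ⟨rfl, Or.inl rfl⟩)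
        ⟨by simp, by simp only; omega, by simp, by simp only; omega⟩
        ⟨by simp, by simp only; omega, by simp, by simp only; omega⟩
      exact ⟨e, he, by simpa using he'⟩
  set I : Finset (Bool × (ℕ × ℕ)) := Finset.univ ×ˢ (Finset.range n ×ˢ Finset.range (n - 1)) with hI
  have hmem : ∀ c ∈ I, c.2.1 < n ∧ c.2.2 + 1 < n := by
    intro c hc
    rw [hI, Finset.mem_product, Finset.mem_product, Finset.mem_range, Finset.mem_range] at hc
    omega
  rcases isEmpty_or_nonempty α with hα | hα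
  · rcases I.eq_empty_or_nonempty with h0 | ⟨c, hc⟩
    · have : I.card = 2 * (n * (n - 1)) := by
        rw [hI, Finset.card_product, Finset.card_product, Finset.card_range, Finset.card_range]
        simp
      rw [h0, Finset.card_empty] at this
      omega
    · obtain ⟨e, _⟩ := H c (hmem c hc).1 (hmem c hc).2
      exact hα.elim e
  choose! g hg using H
  have hcard : I.card = 2 * (n * (n - 1)) := by
    rw [hI, Finset.card_product, Finset.card_product, Finset.card_range, Finset.card_range]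
    simp
  rw [← hcard, ← Set.ncard_coe_finset]
  refine Set.ncard_le_ncard_of_injOn g ?_ ?_ hfin
  · intro c hc
    exact (hg c (hmem c hc).1 (hmem c hc).2).1
  · rintro ⟨b, i, j⟩ hc ⟨b', i', j'⟩ hc' h
    have e1 := (hg _ (hmem _ hc).1 (hmem _ hc).2).2
    have e2 := (hg _ (hmem _ hc').1 (hmem _ hc').2).2
    rw [h, e2] at e1
    cases b <;> cases b' <;> simp at e1 ⊢ <;> omega

/-- a grid vertex is an end of at most four edges -/
lemma grd_deg {S : Set α} {ends : α → Sym2 (ℕ × ℕ)} {x y a b : ℕ} (hG : Grd S ends x y a b)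
    (u : ℕ × ℕ) (A : Finset α) (hA : (A : Set α) ⊆ S) (hu : ∀ e ∈ A, u ∈ ends e) :
    A.card ≤ 4 := by
  classical
  have h1 : A.card = (A.image ends).card :=
    (Finset.card_image_of_injOn (hG.inj.mono hA)).symm
  have h2 : A.image ends ⊆ {s(u, (u.1, u.2 + 1)), s(u, (u.1, u.2 - 1)), s(u, (u.1 + 1, u.2)),
      s(u, (u.1 - 1, u.2))} := by
    intro z hz
    obtain ⟨e, he, rfl⟩ := Finset.mem_image.1 hz
    obtain ⟨p, q, hpq, hadj, -, -⟩ := hG.mem e (hA he)
    have hue := hu e he
    rw [hpq, Sym2.mem_iff] at hue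
    simp only [Finset.mem_insert, Finset.mem_singleton]
    have key : ∀ v w : ℕ × ℕ, adj v w → s(v, w) = s(v, (v.1, v.2 + 1)) ∨
        s(v, w) = s(v, (v.1, v.2 - 1)) ∨ s(v, w) = s(v, (v.1 + 1, v.2)) ∨
        s(v, w) = s(v, (v.1 - 1, v.2)) := by
      rintro ⟨v1, v2⟩ ⟨w1, w2⟩ h
      rcases h with ⟨h3, h4⟩ | ⟨h3, h4⟩
      · simp only at h3 h4
        subst h3
        rcases h4 with h4 | h4
        · left; rw [← h4]
        · right; left; rw [← h4]; simp
      · simp only at h3 h4
        subst h3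
        rcases h4 with h4 | h4
        · right; right; left; rw [← h4]
        · right; right; right; rw [← h4]; simp
    rcases hue with rfl | rfl
    · rw [hpq]; exact key _ _ hadj
    · have hadj' : adj u p := by
        rcases hadj with ⟨h3, h4⟩ | ⟨h3, h4⟩
        · exact Or.inl ⟨h3.symm, h4.symm⟩
        · exact Or.inr ⟨h3.symm, h4.symm⟩
      rw [hpq, Sym2.eq_swap]
      exact key _ _ hadj'
  rw [h1]
  exact (Finset.card_le_card h2).trans Finset.card_le_four

lemma grd_not_diag {S : Set α} {ends : α → Sym2 (ℕ × ℕ)} {x y a b : ℕ} (hG : Grd S ends x y a b)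
    {e : α} (he : e ∈ S) : ¬ (ends e).IsDiag := by
  obtain ⟨p, q, hpq, hadj, -, -⟩ := hG.mem e he
  rw [hpq, Sym2.mk_isDiag_iff]
  rintro rfl
  rcases hadj with ⟨-, h⟩ | ⟨-, h⟩ <;> omega

/-- **RCNT for grids.**  Let `D` be independent in `M`, let `N = (M / D) | W` be cobicircular for
the plain `n × n` grid, and let `V` be a set of `rk (D ∪ W)` locations with sets `F U`, `U ⊆ V`,
of rank at most `|U|`.  If every element of `D ∪ W` is in the closure of `F U ∪ X` for some `U`
with at most two elements, where `X` has rank at most `h`, then `n² ≤ 6 n + 325 h`. -/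
theorem rcnt_grid [Fintype V] (M : Matroid α) [M.Finite] (D W : Finset α)
    (hDE : (D : Set α) ⊆ M.E) (hWE : (W : Set α) ⊆ M.E) (hDW : Disjoint (D : Set α) (W : Set α))
    (hD : M.Indep (D : Set α)) (hrk : rk M ((W : Set α) ∪ (D : Set α)) = Fintype.card V)
    (F : Finset V → Set α) (hFm : ∀ U U', U ⊆ U' → F U ⊆ F U') (hFr : ∀ U, rk M (F U) ≤ U.card)
    (X : Set α) (h : ℕ) (hX : rk M X ≤ h) (S : α → Finset V)
    (hS : ∀ e, e ∈ D ∨ e ∈ W → (S e).card ≤ 2 ∧ e ∈ M.closure (F (S e) ∪ X))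
    (ends : α → Sym2 (ℕ × ℕ)) (n : ℕ) (hn : 2 ≤ n) (hG : Grd (W : Set α) ends 0 0 n n)
    (hB : Bic ((M ／ (D : Set α)) ↾ (W : Set α))✶ (W : Set α) ends) :
    n * n ≤ 6 * n + 325 * h := by
  classical
  set N := (M ／ (D : Set α)) ↾ (W : Set α) with hN
  have hWMD : (W : Set α) ⊆ M.E \ (D : Set α) := fun e he =>
    ⟨hWE he, fun h => Set.disjoint_left.1 hDW h he⟩
  have hNfin : N.Finite := by
    refine ⟨?_⟩
    rw [hN, Matroid.restrict_ground_eq]
    exact W.finite_toSet
  have hNE : N.E = (W : Set α) := by rw [hN, Matroid.restrict_ground_eq]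
  have hrN : ∀ Y : Set α, Y ⊆ (W : Set α) → rk N Y + D.card = rk M (Y ∪ (D : Set α)) := by
    intro Y hY
    have h1 : rk N Y = rk (M ／ (D : Set α)) Y := by
      unfold rk
      rw [hN, Matroid.restrict_eRk_eq _ hY]
    rw [h1, ← rk_contract_set hDE (hY.trans hWMD), rk_indep hD, Set.ncard_coe_finset]
  have hWN : rk N (W : Set α) + D.card = Fintype.card V := by
    rw [hrN _ (subset_refl _), hrk]
  have hdual : ∀ Y : Set α, Y ⊆ (W : Set α) →
      rk N✶ Y + rk N (W : Set α) = rk N ((W : Set α) \ Y) + Y.ncard := by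
    intro Y hY
    have := rk_dual (M := N) (X := Y) (by rw [hNE]; exact hY)
    rwa [hNE] at this
  have hmain := rcnt M D W S ends h 4 ?_ (fun e he => (hS e he).1) ?_ hG.inj
    (fun e he => grd_not_diag hG he) (fun u A hA hu => grd_deg hG u A (fun e he => hA he) hu)
  · have h1 : rk N✶ (W : Set α) = n * n := rk_rect hB hG hn hn
    have h2 := hdual (W : Set α) (subset_refl _)
    rw [h1, sdiff_self, Set.ncard_coe_finset] at h2
    have h3 : rk N (∅ : Set α) = 0 := by
      have := rk_le_ncard N (X := (∅ : Set α)) Set.finite_empty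
      rw [Set.ncard_empty] at this
      exact Nat.le_zero.1 this
    rw [h3] at h2
    have h4 := grd_card_ge hG W.finite_toSet
    rw [Set.ncard_coe_finset] at h4
    have h5 : n * (n - 1) + n = n * n := by
      obtain ⟨m, rfl⟩ : ∃ m, n = m + 1 := ⟨n - 1, by omega⟩
      simp only [Nat.add_sub_cancel]
      ring
    omega
  · intro K
    have h1 : {e | (e ∈ D ∨ e ∈ W) ∧ ∀ x ∈ K, x ∉ S e} ⊆ M.closure (F Kᶜ ∪ X) := by
      rintro e ⟨he, heK⟩
      refine M.closure_subset_closure (union_subset_union_left _ (hFm _ _ ?_)) (hS e he).2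
      intro x hx
      rw [Finset.mem_compl]
      exact fun hxK => heK x hxK hx
    have h2 := rk_mono M h1
    rw [rk_closure] at h2
    have h3 := rk_submod M (F Kᶜ) X
    have h4 := hFr Kᶜ
    have h5 := Finset.card_compl_add_card K
    omega
  · rintro A hA ⟨ψ, hψ, hψe⟩
    have hAW : (A : Set α) ⊆ (W : Set α) := fun e he => hA he
    have h1 : N✶.Indep (A : Set α) := hB.ind _ ψ hAW hψ hψe
    have h2 := rk_indep h1
    have h3 := hdual _ hAW
    have h4 := hrN _ (sdiff_subset : (W : Set α) \ (A : Set α) ⊆ (W : Set α))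
    rw [union_comm]
    omega

end BIC.Cnt
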